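import Pool.Agent.H687R3.AL.Basic

/-!
Infrastructure for finite automorphic loops: multiplication group, normal subloops, quotients,
subloops.
-/

set_option autoImplicit false
set_option linter.dupNamespace false
set_option linter.unusedVariables false
set_option linter.unusedSectionVars false

namespace Pool.Agent.H361R3.HL

open Pool.Agent.H687R3.AL Pool.Agent.H687R3.AL.AL

variable {Q : Type}

/-- the multiplication group -/
noncomputable def Mlt (A : AL Q) : Subgroup (Equiv.Perm Q) :=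
  Subgroup.closure (Set.range A.L ∪ Set.range A.R)

theorem L_mem (A : AL Q) (x : Q) : A.L x ∈ Mlt A := Subgroup.subset_closure (Or.inl ⟨x, rfl⟩)
theorem R_mem (A : AL Q) (x : Q) : A.R x ∈ Mlt A := Subgroup.subset_closure (Or.inr ⟨x, rfl⟩)

theorem L_e' (A : AL Q) (x : Q) : A.L x A.e = x := A.idr x
theorem R_e' (A : AL Q) (x : Q) : A.R x A.e = x := A.idl x

/-- the holomorph -/
noncomputable def Hol (A : AL Q) : Subgroup (Equiv.Perm Q) where
  carrier := {g | ∃ x : Q, ∃ α ∈ A.Aut, g = A.L x * α}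
  one_mem' := ⟨A.e, 1, one_mem _, by rw [L_e]; simp⟩
  mul_mem' := by
    rintro _ _ ⟨x, α, hα, rfl⟩ ⟨y, β, hβ, rfl⟩
    refine ⟨A.op x (α y), ((A.L (A.op x (α y)))⁻¹ * A.L x * A.L (α y)) * (α * β),
      mul_mem (theta_mem _ _) (mul_mem hα hβ), ?_⟩
    have h := aut_L hα y
    calc A.L x * α * (A.L y * β) = A.L x * (α * A.L y) * β := by group
      _ = _ := by rw [h]; group
  inv_mem' := by
    rintro _ ⟨x, α, hα, rfl⟩
    have h1 := theta_mem (A := A) x (A.inv x)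
    rw [op_inv, L_e, inv_one, one_mul] at h1
    have h2 := aut_L (inv_mem hα) (A.inv x)
    refine ⟨α⁻¹ (A.inv x), α⁻¹ * (A.L x * A.L (A.inv x))⁻¹, mul_mem (inv_mem hα) (inv_mem h1), ?_⟩
    calc (A.L x * α)⁻¹ = (α⁻¹ * A.L (A.inv x)) * (A.L x * A.L (A.inv x))⁻¹ := by group
      _ = _ := by rw [h2]; group

theorem Mlt_le (A : AL Q) : Mlt A ≤ Hol A := by
  rw [Mlt, Subgroup.closure_le]
  rintro _ (⟨x, rfl⟩ | ⟨x, rfl⟩)
  · exact ⟨x, 1, one_mem _, by simp⟩
  · refine ⟨x, ((A.R x)⁻¹ * A.L x)⁻¹, inv_mem (tau_mem (A := A) x), by group⟩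

theorem aut_of_mlt {A : AL Q} {g : Equiv.Perm Q} (hg : g ∈ Mlt A) (he : g A.e = A.e) :
    g ∈ A.Aut := by
  obtain ⟨x, α, hα, rfl⟩ := Mlt_le A hg
  have h1 : A.op x (α A.e) = A.e := he
  rw [aut_e hα, A.idr] at h1
  rw [h1, L_e, one_mul]
  exact hα

/-- subloops (of finite loops) -/
structure IsSub (A : AL Q) (S : Set Q) : Prop where
  e : A.e ∈ S
  mul : ∀ a ∈ S, ∀ b ∈ S, A.op a b ∈ S

theorem surj_of_inj [Finite Q] {S : Set Q} {f : Q → Q} (hf : Function.Injective f)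
    (hm : ∀ y ∈ S, f y ∈ S) {z : Q} (hz : z ∈ S) : ∃ y ∈ S, f y = z := by
  have h := Set.eq_of_subset_of_ncard_le (s := f '' S) (t := S) (by
    rintro _ ⟨y, hy, rfl⟩; exact hm y hy) (by rw [Set.ncard_image_of_injective _ hf])
  rw [← h] at hz
  exact hz

theorem IsSub.ldiv [Finite Q] {A : AL Q} {S : Set Q} (hS : IsSub A S) {a b : Q} (ha : a ∈ S)
    (h : A.op a b ∈ S) : b ∈ S := by
  obtain ⟨y, hy, hy2⟩ := surj_of_inj (A.bijL a).1 (fun y hy => hS.mul a ha y hy) h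
  have : y = b := (A.bijL a).1 hy2
  rwa [← this]

theorem IsSub.rdiv [Finite Q] {A : AL Q} {S : Set Q} (hS : IsSub A S) {a b : Q} (ha : a ∈ S)
    (h : A.op b a ∈ S) : b ∈ S := by
  obtain ⟨y, hy, hy2⟩ := surj_of_inj (A.bijR a).1 (fun y hy => hS.mul y hy a ha) h
  have : y = b := (A.bijR a).1 hy2
  rwa [← this]

/-- normal subloops -/
structure IsNorm (A : AL Q) (M : Set Q) : Prop extends IsSub A M where
  inv : ∀ g ∈ Mlt A, g A.e = A.e → ∀ x ∈ M, g x ∈ M

/-- the coset relation -/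
def rel (A : AL Q) (M : Set Q) (x y : Q) : Prop := (A.L x)⁻¹ y ∈ M

section
variable [Finite Q] {A : AL Q} {M : Set Q}

theorem IsNorm.inv_iff (hM : IsNorm A M) {g : Equiv.Perm Q} (hg : g ∈ Mlt A) (he : g A.e = A.e)
    (x : Q) : g x ∈ M ↔ x ∈ M := by
  refine ⟨fun h => ?_, hM.inv g hg he x⟩
  have h1 := hM.inv g⁻¹ (inv_mem hg) (by rw [Equiv.Perm.inv_eq_iff_eq, he]) _ h
  rwa [show g⁻¹ (g x) = x from g.symm_apply_apply x] at h1

theorem rel_mlt (hM : IsNorm A M) {g : Equiv.Perm Q} (hg : g ∈ Mlt A) {x y : Q} :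
    rel A M (g x) (g y) ↔ rel A M x y := by
  have hh : (A.L (g x))⁻¹ * g * A.L x ∈ Mlt A :=
    mul_mem (mul_mem (inv_mem (L_mem A _)) hg) (L_mem A _)
  have h1 : ((A.L (g x))⁻¹ * g * A.L x) A.e = A.e := by
    rw [Equiv.Perm.mul_apply, Equiv.Perm.mul_apply, Equiv.Perm.inv_eq_iff_eq, L_e', L_e']
  rw [rel, rel, ← hM.inv_iff hh h1 ((A.L x)⁻¹ y)]
  rw [Equiv.Perm.mul_apply, show A.L x ((A.L x)⁻¹ y) = y from (A.L x).apply_symm_apply y,
    Equiv.Perm.mul_apply]

theorem rel_e (x : Q) : rel A M A.e x ↔ x ∈ M := by rw [rel, L_e]; rfl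

theorem rel_refl (hM : IsNorm A M) (x : Q) : rel A M x x := by
  have h : (A.L x)⁻¹ x = A.e := by rw [Equiv.Perm.inv_eq_iff_eq, L_e']
  rw [rel, h]; exact hM.e

theorem rel_symm (hM : IsNorm A M) {x y : Q} (h : rel A M x y) : rel A M y x := by
  have h1 := (rel_mlt hM (inv_mem (L_mem A x))).2 h
  have h2 : (A.L x)⁻¹ x = A.e := by rw [Equiv.Perm.inv_eq_iff_eq, L_e']
  rw [h2, rel_e] at h1
  rw [← rel_mlt hM (inv_mem (L_mem A x)), h2]
  -- `m := x \ y ∈ M`; want `rel m e`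
  set m := (A.L x)⁻¹ y with hm
  rw [rel]
  have h3 : A.op m ((A.L m)⁻¹ A.e) = A.e := (A.L m).apply_symm_apply A.e
  apply hM.toIsSub.ldiv h1
  rw [h3]; exact hM.e

theorem rel_trans (hM : IsNorm A M) {x y z : Q} (h : rel A M x y) (h' : rel A M y z) :
    rel A M x z := by
  rw [← rel_mlt hM (inv_mem (L_mem A x))] at h h' ⊢
  have h2 : (A.L x)⁻¹ x = A.e := by rw [Equiv.Perm.inv_eq_iff_eq, L_e']
  rw [h2, rel_e] at h ⊢
  set m := (A.L x)⁻¹ y with hm
  set n := (A.L x)⁻¹ z with hn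
  rw [rel] at h'
  have h3 : A.op m ((A.L m)⁻¹ n) = n := (A.L m).apply_symm_apply n
  rw [← h3]
  exact hM.mul _ h _ h'

/-- the coset setoid -/
def cosetSetoid (hM : IsNorm A M) : Setoid Q where
  r := rel A M
  iseqv := ⟨rel_refl hM, rel_symm hM, rel_trans hM⟩

end

/-- quotients along surjections -/
noncomputable def ofSurj [Finite Q] (A : AL Q) {Q' : Type} (f : Q → Q') (hf : Function.Surjective f)
    (op' : Q' → Q' → Q') (h : ∀ x y, f (A.op x y) = op' (f x) (f y)) : AL Q' := by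
  have hfin : Finite Q' := Finite.of_surjective f hf
  have hL : ∀ x, Function.Bijective (fun y => op' x y) := by
    intro x
    obtain ⟨x, rfl⟩ := hf x
    apply Finite.injective_iff_bijective.1
    apply Finite.injective_iff_surjective.2
    intro z
    obtain ⟨z, rfl⟩ := hf z
    obtain ⟨y, hy⟩ := (A.bijL x).2 z
    exact ⟨f y, by simp only; rw [← h]; exact congrArg f hy⟩
  have hR : ∀ x, Function.Bijective (fun y => op' y x) := by
    intro x
    obtain ⟨x, rfl⟩ := hf x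
    apply Finite.injective_iff_bijective.1
    apply Finite.injective_iff_surjective.2
    intro z
    obtain ⟨z, rfl⟩ := hf z
    obtain ⟨y, hy⟩ := (A.bijR x).2 z
    exact ⟨f y, by simp only; rw [← h]; exact congrArg f hy⟩
  exact
  { op := op'
    e := f A.e
    idl := by intro x; obtain ⟨x, rfl⟩ := hf x; rw [← h, A.idl]
    idr := by intro x; obtain ⟨x, rfl⟩ := hf x; rw [← h, A.idr]
    bijL := hL
    bijR := hR
    autL := by
      intro x y z₁ z₂ w₁ w₂ h1 h2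
      obtain ⟨x, rfl⟩ := hf x
      obtain ⟨y, rfl⟩ := hf y
      obtain ⟨z₁, rfl⟩ := hf z₁
      obtain ⟨z₂, rfl⟩ := hf z₂
      obtain ⟨v₁, hv₁⟩ := (A.bijL (A.op y x)).2 (A.op y (A.op x z₁))
      obtain ⟨v₂, hv₂⟩ := (A.bijL (A.op y x)).2 (A.op y (A.op x z₂))
      simp only at hv₁ hv₂
      have e1 : w₁ = f v₁ := by
        apply (hL (op' (f y) (f x))).1
        simp only
        rw [h1, ← h, ← h, ← h, ← h, hv₁]
      have e2 : w₂ = f v₂ := by
        apply (hL (op' (f y) (f x))).1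
        simp only
        rw [h2, ← h, ← h, ← h, ← h, hv₂]
      rw [e1, e2]
      have := congrArg f (A.autL x y z₁ z₂ v₁ v₂ hv₁ hv₂)
      simpa only [h] using this
    autR := by
      intro x y z₁ z₂ w₁ w₂ h1 h2
      obtain ⟨x, rfl⟩ := hf x
      obtain ⟨y, rfl⟩ := hf y
      obtain ⟨z₁, rfl⟩ := hf z₁
      obtain ⟨z₂, rfl⟩ := hf z₂
      obtain ⟨v₁, hv₁⟩ := (A.bijR (A.op x y)).2 (A.op (A.op z₁ x) y)
      obtain ⟨v₂, hv₂⟩ := (A.bijR (A.op x y)).2 (A.op (A.op z₂ x) y)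
      simp only at hv₁ hv₂
      have e1 : w₁ = f v₁ := by
        apply (hR (op' (f x) (f y))).1
        simp only
        rw [h1, ← h, ← h, ← h, ← h, hv₁]
      have e2 : w₂ = f v₂ := by
        apply (hR (op' (f x) (f y))).1
        simp only
        rw [h2, ← h, ← h, ← h, ← h, hv₂]
      rw [e1, e2]
      have := congrArg f (A.autR x y z₁ z₂ v₁ v₂ hv₁ hv₂)
      simpa only [h] using this
    autT := by
      intro x z₁ z₂ w₁ w₂ h1 h2
      obtain ⟨x, rfl⟩ := hf x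
      obtain ⟨z₁, rfl⟩ := hf z₁
      obtain ⟨z₂, rfl⟩ := hf z₂
      obtain ⟨v₁, hv₁⟩ := (A.bijR x).2 (A.op x z₁)
      obtain ⟨v₂, hv₂⟩ := (A.bijR x).2 (A.op x z₂)
      simp only at hv₁ hv₂
      have e1 : w₁ = f v₁ := by
        apply (hR (f x)).1
        simp only
        rw [h1, ← h, ← h, hv₁]
      have e2 : w₂ = f v₂ := by
        apply (hR (f x)).1
        simp only
        rw [h2, ← h, ← h, hv₂]
      rw [e1, e2]
      have := congrArg f (A.autT x z₁ z₂ v₁ v₂ hv₁ hv₂)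
      simpa only [h] using this }

/-- subloops as loops -/
noncomputable def subAL [Finite Q] (A : AL Q) (S : Set Q) (hS : IsSub A S) : AL S where
  op a b := ⟨A.op a.1 b.1, hS.mul _ a.2 _ b.2⟩
  e := ⟨A.e, hS.e⟩
  idl := fun x => Subtype.ext (A.idl _)
  idr := fun x => Subtype.ext (A.idr _)
  bijL := fun x => Finite.injective_iff_bijective.1 fun y z h =>
    Subtype.ext ((A.bijL x.1).1 (congrArg Subtype.val h))
  bijR := fun x => Finite.injective_iff_bijective.1 fun y z h =>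
    Subtype.ext ((A.bijR x.1).1 (congrArg Subtype.val h))
  autL := fun x y z₁ z₂ w₁ w₂ h1 h2 => Subtype.ext
    (A.autL _ _ _ _ _ _ (congrArg Subtype.val h1) (congrArg Subtype.val h2))
  autR := fun x y z₁ z₂ w₁ w₂ h1 h2 => Subtype.ext
    (A.autR _ _ _ _ _ _ (congrArg Subtype.val h1) (congrArg Subtype.val h2))
  autT := fun x z₁ z₂ w₁ w₂ h1 h2 => Subtype.ext
    (A.autT _ _ _ _ _ (congrArg Subtype.val h1) (congrArg Subtype.val h2))

end Pool.Agent.H361R3.HL
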