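import Pool.Agent.H361R3.HL.Solv

/-!
Reduction of the Hall theorem to the case of a complement of a minimal normal elementary abelian
subloop of coprime order.
-/

set_option autoImplicit false
set_option linter.dupNamespace false
set_option linter.unusedVariables false
set_option linter.unusedSectionVars false

namespace Pool.Agent.H361R3.HL

open Pool.Agent.H687R3.AL Pool.Agent.H687R3.AL.AL

variable {Q : Type}

/-- elementary abelian -/
structure ElemAb (A : AL Q) (r : ℕ) (M : Set Q) : Prop where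
  comm : ∀ x ∈ M, ∀ y ∈ M, A.op x y = A.op y x
  assoc : ∀ x ∈ M, ∀ y ∈ M, ∀ z ∈ M, A.op (A.op x y) z = A.op x (A.op y z)
  pw : ∀ x ∈ M, pw A x r = A.e

/-- minimal normal subloop -/
structure MinNorm (A : AL Q) (M : Set Q) : Prop extends IsNorm A M where
  ne : ∃ x ∈ M, x ≠ A.e
  min : ∀ N : Set Q, IsNorm A N → N ⊆ M → (∃ x ∈ N, x ≠ A.e) → N = M

theorem IsChar.norm {A : AL Q} {U : Set Q} (h : IsChar A U) : IsNorm A U :=
  ⟨h.1, fun g hg he x hx => h.2 g (aut_of_mlt hg he) x hx⟩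

/-- the abelian group structure on an abelian subloop -/
@[reducible] noncomputable def abGroup [Finite Q] (A : AL Q) {U : Set Q} (hU : IsSub A U)
    (hc : ∀ x ∈ U, ∀ y ∈ U, A.op x y = A.op y x)
    (ha : ∀ x ∈ U, ∀ y ∈ U, ∀ z ∈ U, A.op (A.op x y) z = A.op x (A.op y z)) : CommGroup U where
  mul x y := ⟨A.op x.1 y.1, hU.mul _ x.2 _ y.2⟩
  one := ⟨A.e, hU.e⟩
  inv x := ⟨(A.L x.1)⁻¹ A.e, hU.ldiv x.2 (by
    rw [show A.op x.1 ((A.L x.1)⁻¹ A.e) = A.e from (A.L x.1).apply_symm_apply A.e]; exact hU.e)⟩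
  mul_assoc x y z := Subtype.ext (ha _ x.2 _ y.2 _ z.2)
  one_mul x := Subtype.ext (A.idl _)
  mul_one x := Subtype.ext (A.idr _)
  mul_comm x y := Subtype.ext (hc _ x.2 _ y.2)
  inv_mul_cancel x := by
    apply Subtype.ext
    change A.op ((A.L x.1)⁻¹ A.e) x.1 = A.e
    rw [hc _ (hU.ldiv x.2 (by
      rw [show A.op x.1 ((A.L x.1)⁻¹ A.e) = A.e from (A.L x.1).apply_symm_apply A.e]
      exact hU.e)) _ x.2]
    exact (A.L x.1).apply_symm_apply A.e

theorem exists_min [Finite Q] (A : AL Q) (hs : Solv A) (hne : ∃ x : Q, x ≠ A.e) :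
    ∃ (r : ℕ) (M : Set Q), r.Prime ∧ MinNorm A M ∧ ElemAb A r M := by
  classical
  obtain ⟨U, hU, hUne, hcomm, hassoc⟩ := exists_char A hs hne
  have hUn := hU.norm
  have hne' : {N : Set Q | IsNorm A N ∧ N ⊆ U ∧ ∃ x ∈ N, x ≠ A.e}.Nonempty :=
    ⟨U, hUn, subset_refl _, hUne⟩
  obtain ⟨M, ⟨hM, hMU, hMne⟩, hmin⟩ := Set.exists_min_image _ (fun U : Set Q => U.ncard)
    (Set.toFinite {N : Set Q | IsNorm A N ∧ N ⊆ U ∧ ∃ x ∈ N, x ≠ A.e}) hne'
  have hminN : MinNorm A M := ⟨hM, hMne, fun N hN hNM hNne =>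
    Set.eq_of_subset_of_ncard_le hNM (hmin N ⟨hN, hNM.trans hMU, hNne⟩)⟩
  have hcM : ∀ x ∈ M, ∀ y ∈ M, A.op x y = A.op y x := fun x hx y hy =>
    hcomm x (hMU hx) y (hMU hy)
  have haM : ∀ x ∈ M, ∀ y ∈ M, ∀ z ∈ M, A.op (A.op x y) z = A.op x (A.op y z) :=
    fun x hx y hy z hz => hassoc x (hMU hx) y (hMU hy) z (hMU hz)
  letI := abGroup A hM.toIsSub hcM haM
  have hpow : ∀ (x : M) (n : ℕ), (x ^ n).1 = pw A x.1 n := by
    intro x n
    induction n with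
    | zero => rfl
    | succ n ih =>
      rw [pow_succ']
      change A.op x.1 (x ^ n).1 = _
      rw [ih]; rfl
  -- a prime divisor of the order of `M`
  obtain ⟨x0, hx0, hx0e⟩ := hMne
  have hcard : Nat.card M ≠ 1 := by
    intro h1
    rw [Nat.card_eq_one_iff_unique] at h1
    have := h1.1
    exact hx0e (congrArg Subtype.val (Subsingleton.elim (⟨x0, hx0⟩ : M) ⟨A.e, hM.e⟩))
  obtain ⟨r, hr, hrd⟩ := Nat.exists_prime_and_dvd hcard
  haveI : Fact r.Prime := ⟨hr⟩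
  obtain ⟨y, hy⟩ := exists_prime_orderOf_dvd_card' r hrd
  have hN : IsNorm A {x | x ∈ M ∧ pw A x r = A.e} := by
    refine ⟨⟨⟨hM.e, ?_⟩, ?_⟩, ?_⟩
    · have := hpow 1 r
      rw [one_pow] at this
      exact this.symm
    · rintro a ⟨ha, ha'⟩ b ⟨hb, hb'⟩
      refine ⟨hM.mul _ ha _ hb, ?_⟩
      have h1 := hpow (⟨a, ha⟩ * ⟨b, hb⟩) r
      rw [mul_pow] at h1
      have h2 : ((⟨a, ha⟩ : M) ^ r) = 1 := Subtype.ext (by rw [hpow]; exact ha')
      have h3 : ((⟨b, hb⟩ : M) ^ r) = 1 := Subtype.ext (by rw [hpow]; exact hb')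
      rw [h2, h3, one_mul] at h1
      exact h1.symm
    · rintro g hg he x ⟨hx, hx'⟩
      refine ⟨hM.inv g hg he x hx, ?_⟩
      rw [← pw_aut (aut_of_mlt hg he), hx', he]
  have hNM := hminN.min _ hN (fun x hx => hx.1) ⟨y.1, ⟨y.2, by
    rw [← hpow, ← hy, pow_orderOf_eq_one]; rfl⟩, by
    intro h
    have : y = 1 := Subtype.ext h
    rw [this, orderOf_one] at hy
    exact hr.one_lt.ne hy⟩
  refine ⟨r, M, hr, hminN, hcM, haM, ?_⟩
  intro x hx
  rw [← hNM] at hx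
  exact hx.2

/-- Hall subloops -/
def Hall (A : AL Q) (P : Set ℕ) : Prop :=
  ∃ S : Set Q, IsSub A S ∧ ∃ k : ℕ, S.ncard * k = Nat.card Q ∧
    (∀ p : ℕ, p.Prime → p ∣ S.ncard → p ∈ P) ∧ (∀ p : ℕ, p.Prime → p ∣ k → p ∉ P)

/-- the core statement -/
def CORE : Prop :=
  ∀ (Q : Type) [Finite Q] (A : AL Q) (r : ℕ) (M : Set Q), r.Prime → MinNorm A M → ElemAb A r M →
    Solv A → (∀ (Q' : Type) [Finite Q'] (A' : AL Q'), Nat.card Q' < Nat.card Q → Solv A' →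
      ∀ P, Hall A' P) →
    ∀ m : ℕ, M.ncard * m = Nat.card Q → ¬ r ∣ m → ∃ S : Set Q, IsSub A S ∧ S.ncard = m

end Pool.Agent.H361R3.HL
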