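import Pool.Agent.H361R3.HL.Red
import Pool.Statements.S01317

/-!
The strong induction.
-/

set_option autoImplicit false
set_option linter.dupNamespace false
set_option linter.unusedVariables false
set_option linter.unusedSectionVars false

namespace Pool.Agent.H361R3.HL

open Pool.Agent.H687R3.AL Pool.Agent.H687R3.AL.AL

section
variable {Q : Type} [Finite Q] {A : AL Q} {M : Set Q}

/-- the quotient -/
abbrev Qt (hM : IsNorm A M) : Type := Quotient (cosetSetoid hM)

theorem cong_mul (hM : IsNorm A M) {x x' y y' : Q} (h : rel A M x x') (h' : rel A M y y') :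
    rel A M (A.op x y) (A.op x' y') := by
  have h1 : rel A M (A.op x y) (A.op x y') := (rel_mlt hM (L_mem A x)).2 h'
  have h2 : rel A M (A.op x y') (A.op x' y') := (rel_mlt hM (R_mem A y')).2 h
  exact rel_trans hM h1 h2

/-- multiplication on the quotient -/
def qop (hM : IsNorm A M) : Qt hM → Qt hM → Qt hM :=
  Quotient.map₂ A.op (fun _ _ h _ _ h' => cong_mul hM h h')

/-- the quotient loop -/
noncomputable def qAL (hM : IsNorm A M) : AL (Qt hM) :=
  ofSurj A (Quotient.mk (cosetSetoid hM)) Quotient.mk_surjective (qop hM) (fun _ _ => rfl)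

theorem ncard_pre (hM : IsNorm A M) (T : Set (Qt hM)) :
    {x : Q | Quotient.mk (cosetSetoid hM) x ∈ T}.ncard = M.ncard * T.ncard := by
  have e : {x : Q | Quotient.mk (cosetSetoid hM) x ∈ T} ≃ M × T :=
    { toFun := fun x => (⟨(A.L (Quotient.mk (cosetSetoid hM) x.1).out)⁻¹ x.1, by
        have : (cosetSetoid hM) (Quotient.mk (cosetSetoid hM) x.1).out x.1 :=
          Quotient.mk_out (s := cosetSetoid hM) x.1
        exact this⟩, ⟨Quotient.mk (cosetSetoid hM) x.1, x.2⟩)
      invFun := fun p => ⟨A.L p.2.1.out p.1.1, by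
        have h : Quotient.mk (cosetSetoid hM) (A.L p.2.1.out p.1.1) = p.2.1 := by
          conv_rhs => rw [← Quotient.out_eq p.2.1]
          apply Quotient.sound
          apply rel_symm hM
          change (A.L p.2.1.out)⁻¹ (A.L p.2.1.out p.1.1) ∈ M
          rw [show (A.L p.2.1.out)⁻¹ (A.L p.2.1.out p.1.1) = p.1.1 from
            (A.L p.2.1.out).symm_apply_apply _]
          exact p.1.2
        change Quotient.mk (cosetSetoid hM) (A.L p.2.1.out p.1.1) ∈ T
        rw [h]; exact p.2.2⟩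
      left_inv := by
        intro x
        apply Subtype.ext
        exact (A.L _).apply_symm_apply _
      right_inv := by
        rintro ⟨m, q⟩
        have h : Quotient.mk (cosetSetoid hM) (A.L q.1.out m.1) = q.1 := by
          conv_rhs => rw [← Quotient.out_eq q.1]
          apply Quotient.sound
          apply rel_symm hM
          change (A.L q.1.out)⁻¹ (A.L q.1.out m.1) ∈ M
          rw [show (A.L q.1.out)⁻¹ (A.L q.1.out m.1) = m.1 from (A.L q.1.out).symm_apply_apply _]
          exact m.2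
        apply Prod.ext
        · apply Subtype.ext
          change (A.L (Quotient.mk (cosetSetoid hM) (A.L q.1.out m.1)).out)⁻¹
            (A.L q.1.out m.1) = m.1
          rw [h]
          exact (A.L q.1.out).symm_apply_apply _
        · exact Subtype.ext h }
  have h1 := Nat.card_congr e
  rw [Nat.card_prod] at h1
  exact h1

theorem card_q (hM : IsNorm A M) : Nat.card Q = M.ncard * Nat.card (Qt hM) := by
  have h := ncard_pre hM (Set.univ : Set (Qt hM))
  rw [Set.ncard_univ] at h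
  rw [← h, ← Set.ncard_univ]
  congr 1

end

theorem ncard_prime_pow {Q : Type} [Finite Q] {A : AL Q} {r : ℕ} {M : Set Q} (hr : r.Prime)
    (hM : IsNorm A M) (he : ElemAb A r M) : ∀ p : ℕ, p.Prime → p ∣ M.ncard → p = r := by
  letI := abGroup A hM.toIsSub he.comm he.assoc
  have hpow : ∀ (x : M) (n : ℕ), (x ^ n).1 = pw A x.1 n := by
    intro x n
    induction n with
    | zero => rfl
    | succ n ih =>
      rw [pow_succ']
      change A.op x.1 (x ^ n).1 = _
      rw [ih]; rfl
  intro p hp hd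
  haveI : Fact p.Prime := ⟨hp⟩
  obtain ⟨y, hy⟩ := exists_prime_orderOf_dvd_card' p (G := M) hd
  have h1 : y ^ r = 1 := Subtype.ext (by rw [hpow]; exact he.pw _ y.2)
  have h2 := orderOf_dvd_of_pow_eq_one h1
  rw [hy] at h2
  exact (Nat.prime_dvd_prime_iff_eq hp hr).1 h2

theorem induction (core : CORE) : ∀ n : ℕ, ∀ (Q : Type) [Finite Q] (A : AL Q), Nat.card Q = n →
    Solv A → ∀ P, Hall A P := by
  intro n
  induction n using Nat.strong_induction_on with
  | _ n ih =>
  intro Q _ A hn hs P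
  have IH : ∀ (Q' : Type) [Finite Q'] (A' : AL Q'), Nat.card Q' < Nat.card Q → Solv A' →
      ∀ P, Hall A' P := by
    intro Q' _ A' hlt hs' P'
    exact ih _ (by rw [hn] at hlt; exact hlt) Q' A' rfl hs' P'
  by_cases hne : ∃ x : Q, x ≠ A.e
  swap
  · push Not at hne
    refine ⟨Set.univ, ⟨trivial, fun _ _ _ _ => trivial⟩, 1, by rw [Set.ncard_univ, mul_one], ?_, ?_⟩
    · intro p hp hd
      exfalso
      have h1 : Nat.card Q = 1 := by
        rw [Nat.card_eq_one_iff_unique]
        exact ⟨⟨fun a b => by rw [hne a, hne b]⟩, ⟨A.e⟩⟩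
      rw [Set.ncard_univ, h1] at hd
      exact hp.one_lt.ne' (Nat.dvd_one.1 hd)
    · intro p hp hd
      exfalso
      exact hp.one_lt.ne' (Nat.dvd_one.1 hd)
  obtain ⟨r, M, hr, hM, he⟩ := exists_min A hs hne
  have hMn := hM.toIsNorm
  have hcard := card_q hMn
  have hM2 : 2 ≤ M.ncard := by
    obtain ⟨x, hx, hxe⟩ := hM.ne
    exact (Set.one_lt_ncard_iff (Set.toFinite M)).2 ⟨x, A.e, hx, hMn.e, hxe⟩
  have hQpos : 0 < Nat.card Q := by
    haveI : Nonempty Q := ⟨A.e⟩
    exact Nat.card_pos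
  have hQtpos : 0 < Nat.card (Qt hMn) := by
    rcases Nat.eq_zero_or_pos (Nat.card (Qt hMn)) with h | h
    · rw [h, mul_zero] at hcard; omega
    · exact h
  obtain ⟨T, hT, k, hk, hTP, hkP⟩ := IH (Qt hMn) (qAL hMn) (by rw [hcard]; nlinarith)
    (solv_quot A _ _ _ _ hs) P
  -- the preimage
  have hT' : IsSub A {x : Q | Quotient.mk (cosetSetoid hMn) x ∈ T} :=
    ⟨hT.e, fun a ha b hb => hT.mul _ ha _ hb⟩
  have hT'c := ncard_pre hMn T
  by_cases hrP : r ∈ P
  · refine ⟨_, hT', k, ?_, ?_, hkP⟩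
    · rw [hT'c, hcard, mul_assoc, hk]
    · intro p hp hd
      rw [hT'c] at hd
      rcases (Nat.Prime.dvd_mul hp).1 hd with h | h
      · rw [ncard_prime_pow hr hMn he p hp h]; exact hrP
      · exact hTP p hp h
  rcases Nat.lt_or_ge {x : Q | Quotient.mk (cosetSetoid hMn) x ∈ T}.ncard (Nat.card Q) with hlt | hge
  · -- induction in the preimage
    obtain ⟨S, hS, k', hk', hSP, hkP'⟩ := IH _ (subAL A _ hT') hlt (solv_sub A hT' hs) P
    have hSc : (Subtype.val '' S).ncard = S.ncard :=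
      Set.ncard_image_of_injective _ Subtype.val_injective
    refine ⟨Subtype.val '' S, ⟨⟨_, hS.e, rfl⟩, ?_⟩, k' * k, ?_, ?_, ?_⟩
    · rintro _ ⟨a, ha, rfl⟩ _ ⟨b, hb, rfl⟩
      exact ⟨_, hS.mul _ ha _ hb, rfl⟩
    · rw [hSc, ← mul_assoc, hk']
      change {x : Q | Quotient.mk (cosetSetoid hMn) x ∈ T}.ncard * k = _
      rw [hT'c, hcard, mul_assoc, hk]
    · intro p hp hd
      rw [hSc] at hd
      exact hSP p hp hd
    · intro p hp hd
      rcases (Nat.Prime.dvd_mul hp).1 hd with h | h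
      · exact hkP' p hp h
      · exact hkP p hp h
  · -- `T` is everything
    have hTc : T.ncard = Nat.card (Qt hMn) := by
      rw [hT'c, hcard] at hge
      have h1 : Nat.card (Qt hMn) ≤ T.ncard := Nat.le_of_mul_le_mul_left hge (by omega)
      have h2 : T.ncard ≤ Nat.card (Qt hMn) := Set.ncard_le_card _
      omega
    have hrm : ¬ r ∣ Nat.card (Qt hMn) := by
      intro h
      rw [← hTc] at h
      exact hrP (hTP r hr h)
    obtain ⟨S, hS, hSc⟩ := core Q A r M hr hM he hs IH _ hcard.symm hrm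
    refine ⟨S, hS, M.ncard, by rw [hSc, hcard, mul_comm], ?_, ?_⟩
    · intro p hp hd
      rw [hSc, ← hTc] at hd
      exact hTP p hp hd
    · intro p hp hd
      rw [ncard_prime_pow hr hMn he p hp hd]
      exact hrP

/-- the frozen statement S01317, from `CORE` -/
theorem final (core : CORE) :
  ∀ (Q : Type) [Fintype Q] (mul : Q → Q → Q) (e : Q),
    (∀ x, mul e x = x ∧ mul x e = x) →
    (∀ a, Function.Bijective (mul a)) →
    (∀ a, Function.Bijective (fun x => mul x a)) →
    (∀ x y u v a b, mul (mul x y) a = mul x (mul y u) →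
        mul (mul x y) b = mul x (mul y v) →
        mul (mul x y) (mul a b) = mul x (mul y (mul u v))) →
    (∀ x y u v a b, mul a (mul y x) = mul (mul u y) x →
        mul b (mul y x) = mul (mul v y) x →
        mul (mul a b) (mul y x) = mul (mul (mul u v) y) x) →
    (∀ x u v a b, mul a x = mul x u → mul b x = mul x v →
        mul (mul a b) x = mul x (mul u v)) →
    (∃ (n : ℕ) (S : ℕ → Set Q), S 0 = {e} ∧ S n = Set.univ ∧
      ∀ i < n, S i ⊆ S (i + 1) ∧ e ∈ S i ∧
        (∀ a ∈ S i, ∀ b ∈ S i, mul a b ∈ S i) ∧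
        (∀ x ∈ S (i + 1), ∀ y ∈ S (i + 1), ∀ m ∈ S i,
          (∃ m' ∈ S i, mul x m = mul m' x) ∧
          (∃ m' ∈ S i, mul (mul m x) y = mul m' (mul x y)) ∧
          (∃ m' ∈ S i, mul y (mul x m) = mul (mul y x) m')) ∧
        (∀ x ∈ S (i + 1), ∀ y ∈ S (i + 1), ∀ z ∈ S (i + 1),
          (∃ m ∈ S i, mul (mul x y) z = mul (mul x (mul y z)) m) ∧
          (∃ m ∈ S i, mul x y = mul (mul y x) m))) →
    ∀ P : Set ℕ, ∃ H : Finset Q, e ∈ H ∧ (∀ a ∈ H, ∀ b ∈ H, mul a b ∈ H) ∧
      ∃ k : ℕ, H.card * k = Fintype.card Q ∧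
        (∀ p : ℕ, p.Prime → p ∣ H.card → p ∈ P) ∧
        (∀ p : ℕ, p.Prime → p ∣ k → p ∉ P) := by
  classical
  intro Q _ mul e h1 h2 h3 h4 h5 h6 h7 P
  let A : AL Q :=
    { op := mul
      e := e
      idl := fun x => (h1 x).1
      idr := fun x => (h1 x).2
      bijL := h2
      bijR := h3
      autL := fun x y z₁ z₂ w₁ w₂ g1 g2 => h4 y x z₁ z₂ w₁ w₂ g1 g2
      autR := fun x y z₁ z₂ w₁ w₂ g1 g2 => h5 y x z₁ z₂ w₁ w₂ g1 g2
      autT := fun x z₁ z₂ w₁ w₂ g1 g2 => h6 x z₁ z₂ w₁ w₂ g1 g2 }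
  obtain ⟨S, hS, k, hk, hSP, hkP⟩ := induction core _ Q A rfl h7 P
  refine ⟨S.toFinset, ?_, ?_, k, ?_, ?_, hkP⟩
  · rw [Set.mem_toFinset]; exact hS.e
  · intro a ha b hb
    rw [Set.mem_toFinset] at ha hb ⊢
    exact hS.mul a ha b hb
  · rw [← Set.ncard_eq_toFinset_card', hk, Nat.card_eq_fintype_card]
  · intro p hp hd
    rw [← Set.ncard_eq_toFinset_card'] at hd
    exact hSP p hp hd

end Pool.Agent.H361R3.HL
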