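import Pool.Agent.H361R3.HL.Infra

/-!
Solvable automorphic loops: subloops, quotients, a minimal normal elementary abelian subloop.
-/

set_option autoImplicit false
set_option linter.dupNamespace false
set_option linter.unusedVariables false
set_option linter.unusedSectionVars false

namespace Pool.Agent.H361R3.HL

open Pool.Agent.H687R3.AL Pool.Agent.H687R3.AL.AL

variable {Q : Type}

/-- `S` is a normal subloop of `T` with abelian group quotient -/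
def AbQ (A : AL Q) (S T : Set Q) : Prop :=
  (∀ x ∈ T, ∀ y ∈ T, ∀ m ∈ S,
    (∃ m' ∈ S, A.op x m = A.op m' x) ∧
    (∃ m' ∈ S, A.op (A.op m x) y = A.op m' (A.op x y)) ∧
    (∃ m' ∈ S, A.op y (A.op x m) = A.op (A.op y x) m')) ∧
  (∀ x ∈ T, ∀ y ∈ T, ∀ z ∈ T,
    (∃ m ∈ S, A.op (A.op x y) z = A.op (A.op x (A.op y z)) m) ∧
    (∃ m ∈ S, A.op x y = A.op (A.op y x) m))

/-- solvable loops (as in the frozen statement) -/
def Solv (A : AL Q) : Prop :=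
  ∃ (n : ℕ) (S : ℕ → Set Q), S 0 = {A.e} ∧ S n = Set.univ ∧
    ∀ i < n, S i ⊆ S (i + 1) ∧ A.e ∈ S i ∧
      (∀ a ∈ S i, ∀ b ∈ S i, A.op a b ∈ S i) ∧ AbQ A (S i) (S (i + 1))

theorem solv_sub [Finite Q] (A : AL Q) {U : Set Q} (hU : IsSub A U) (h : Solv A) :
    Solv (subAL A U hU) := by
  obtain ⟨n, S, h0, hn, hS⟩ := h
  refine ⟨n, fun i => Subtype.val ⁻¹' S i, ?_, ?_, ?_⟩
  · ext x
    simp only [h0, Set.mem_preimage, Set.mem_singleton_iff]
    exact ⟨fun h => Subtype.ext h, fun h => congrArg Subtype.val h⟩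
  · simp only [hn, Set.preimage_univ]
  · intro i hi
    obtain ⟨h1, h2, h3, h4, h5⟩ := hS i hi
    refine ⟨fun x hx => h1 hx, h2, fun a ha b hb => h3 _ ha _ hb, ?_, ?_⟩
    · intro x hx y hy m hm
      obtain ⟨⟨a, ha, ha'⟩, ⟨b, hb, hb'⟩, ⟨c, hc, hc'⟩⟩ := h4 x.1 hx y.1 hy m.1 hm
      refine ⟨⟨⟨a, ?_⟩, ha, Subtype.ext ha'⟩, ⟨⟨b, ?_⟩, hb, Subtype.ext hb'⟩,
        ⟨⟨c, ?_⟩, hc, Subtype.ext hc'⟩⟩
      · exact hU.rdiv x.2 (by rw [← ha']; exact hU.mul _ x.2 _ m.2)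
      · exact hU.rdiv (hU.mul _ x.2 _ y.2)
          (by rw [← hb']; exact hU.mul _ (hU.mul _ m.2 _ x.2) _ y.2)
      · exact hU.ldiv (hU.mul _ y.2 _ x.2)
          (by rw [← hc']; exact hU.mul _ y.2 _ (hU.mul _ x.2 _ m.2))
    · intro x hx y hy z hz
      obtain ⟨⟨a, ha, ha'⟩, ⟨b, hb, hb'⟩⟩ := h5 x.1 hx y.1 hy z.1 hz
      refine ⟨⟨⟨a, ?_⟩, ha, Subtype.ext ha'⟩, ⟨⟨b, ?_⟩, hb, Subtype.ext hb'⟩⟩
      · exact hU.ldiv (hU.mul _ x.2 _ (hU.mul _ y.2 _ z.2))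
          (by rw [← ha']; exact hU.mul _ (hU.mul _ x.2 _ y.2) _ z.2)
      · exact hU.ldiv (hU.mul _ y.2 _ x.2) (by rw [← hb']; exact hU.mul _ x.2 _ y.2)

theorem solv_quot [Finite Q] (A : AL Q) {Q' : Type} (f : Q → Q') (hf : Function.Surjective f)
    (op' : Q' → Q' → Q') (h : ∀ x y, f (A.op x y) = op' (f x) (f y)) (hs : Solv A) :
    Solv (ofSurj A f hf op' h) := by
  obtain ⟨n, S, h0, hn, hS⟩ := hs
  refine ⟨n, fun i => f '' S i, ?_, ?_, ?_⟩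
  · simp only [h0, Set.image_singleton]; rfl
  · simp only [hn, Set.image_univ]; exact hf.range_eq
  · intro i hi
    obtain ⟨h1, h2, h3, h4, h5⟩ := hS i hi
    refine ⟨Set.image_mono h1, ⟨A.e, h2, rfl⟩, ?_, ?_, ?_⟩
    · rintro _ ⟨a, ha, rfl⟩ _ ⟨b, hb, rfl⟩
      exact ⟨A.op a b, h3 _ ha _ hb, h a b⟩
    · rintro _ ⟨x, hx, rfl⟩ _ ⟨y, hy, rfl⟩ _ ⟨m, hm, rfl⟩
      obtain ⟨⟨a, ha, ha'⟩, ⟨b, hb, hb'⟩, ⟨c, hc, hc'⟩⟩ := h4 x hx y hy m hm
      refine ⟨⟨f a, ⟨a, ha, rfl⟩, ?_⟩, ⟨f b, ⟨b, hb, rfl⟩, ?_⟩, ⟨f c, ⟨c, hc, rfl⟩, ?_⟩⟩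
      · change op' (f x) (f m) = op' (f a) (f x)
        rw [← h, ← h, ha']
      · change op' (op' (f m) (f x)) (f y) = op' (f b) (op' (f x) (f y))
        rw [← h, ← h, ← h, ← h, hb']
      · change op' (f y) (op' (f x) (f m)) = op' (op' (f y) (f x)) (f c)
        rw [← h, ← h, ← h, ← h, hc']
    · rintro _ ⟨x, hx, rfl⟩ _ ⟨y, hy, rfl⟩ _ ⟨z, hz, rfl⟩
      obtain ⟨⟨a, ha, ha'⟩, ⟨b, hb, hb'⟩⟩ := h5 x hx y hy z hz
      refine ⟨⟨f a, ⟨a, ha, rfl⟩, ?_⟩, ⟨f b, ⟨b, hb, rfl⟩, ?_⟩⟩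
      · change op' (op' (f x) (f y)) (f z) = op' (op' (f x) (op' (f y) (f z))) (f a)
        rw [← h, ← h, ← h, ← h, ← h, ha']
      · change op' (f x) (f y) = op' (op' (f y) (f x)) (f b)
        rw [← h, ← h, ← h, hb']

/-- powers -/
def pw (A : AL Q) (x : Q) : ℕ → Q
  | 0 => A.e
  | n + 1 => A.op x (pw A x n)

theorem pw_aut {A : AL Q} {g : Equiv.Perm Q} (hg : g ∈ A.Aut) (x : Q) (n : ℕ) :
    g (pw A x n) = pw A (g x) n := by
  induction n with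
  | zero => exact aut_e hg
  | succ n ih => rw [pw, pw, aut_apply hg, ih]

/-- `U` is characteristic -/
def IsChar (A : AL Q) (U : Set Q) : Prop := IsSub A U ∧ ∀ g ∈ A.Aut, ∀ x ∈ U, g x ∈ U

/-- In a nontrivial solvable loop there is a nontrivial characteristic abelian subgroup. -/
theorem exists_char [Finite Q] (A : AL Q) (hs : Solv A) (hne : ∃ x : Q, x ≠ A.e) :
    ∃ U : Set Q, IsChar A U ∧ (∃ x ∈ U, x ≠ A.e) ∧ (∀ x ∈ U, ∀ y ∈ U, A.op x y = A.op y x) ∧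
      (∀ x ∈ U, ∀ y ∈ U, ∀ z ∈ U, A.op (A.op x y) z = A.op x (A.op y z)) := by
  classical
  -- a minimal nontrivial characteristic subloop
  have hne' : {U : Set Q | IsChar A U ∧ ∃ x ∈ U, x ≠ A.e}.Nonempty := by
    obtain ⟨x, hx⟩ := hne
    exact ⟨Set.univ, ⟨⟨trivial, fun _ _ _ _ => trivial⟩, fun _ _ _ _ => trivial⟩, x, trivial, hx⟩
  obtain ⟨U, ⟨hU, hUne⟩, hmin⟩ := Set.exists_min_image _ (fun U : Set Q => U.ncard)
    (Set.toFinite {U : Set Q | IsChar A U ∧ ∃ x ∈ U, x ≠ A.e}) hne'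
  refine ⟨U, hU, hUne, ?_⟩
  -- the derived subloop of `U`
  set D : Set Q := {x | ∀ N : Set Q, IsSub A N → N ⊆ U → AbQ A N U → x ∈ N} with hD
  have hDU : D ⊆ U := by
    intro x hx
    apply hx U hU.1 (subset_refl _)
    refine ⟨?_, ?_⟩
    · intro x hx y hy m hm
      refine ⟨?_, ?_, ?_⟩
      · obtain ⟨a, ha⟩ := (A.bijR x).2 (A.op x m)
        exact ⟨a, hU.1.rdiv hx (by rw [show A.op a x = A.op x m from ha]; exact hU.1.mul _ hx _ hm),
          ha.symm⟩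
      · obtain ⟨a, ha⟩ := (A.bijR (A.op x y)).2 (A.op (A.op m x) y)
        exact ⟨a, hU.1.rdiv (hU.1.mul _ hx _ hy) (by
          rw [show A.op a (A.op x y) = A.op (A.op m x) y from ha]
          exact hU.1.mul _ (hU.1.mul _ hm _ hx) _ hy), ha.symm⟩
      · obtain ⟨a, ha⟩ := (A.bijL (A.op y x)).2 (A.op y (A.op x m))
        exact ⟨a, hU.1.ldiv (hU.1.mul _ hy _ hx) (by
          rw [show A.op (A.op y x) a = A.op y (A.op x m) from ha]
          exact hU.1.mul _ hy _ (hU.1.mul _ hx _ hm)), ha.symm⟩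
    · intro x hx y hy z hz
      refine ⟨?_, ?_⟩
      · obtain ⟨a, ha⟩ := (A.bijL (A.op x (A.op y z))).2 (A.op (A.op x y) z)
        exact ⟨a, hU.1.ldiv (hU.1.mul _ hx _ (hU.1.mul _ hy _ hz)) (by
          rw [show A.op (A.op x (A.op y z)) a = A.op (A.op x y) z from ha]
          exact hU.1.mul _ (hU.1.mul _ hx _ hy) _ hz), ha.symm⟩
      · obtain ⟨a, ha⟩ := (A.bijL (A.op y x)).2 (A.op x y)
        exact ⟨a, hU.1.ldiv (hU.1.mul _ hy _ hx) (by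
          rw [show A.op (A.op y x) a = A.op x y from ha]
          exact hU.1.mul _ hx _ hy), ha.symm⟩
  have hDsub : IsSub A D :=
    ⟨fun N hN _ _ => hN.e, fun a ha b hb N hN h1 h2 => hN.mul _ (ha N hN h1 h2) _ (hb N hN h1 h2)⟩
  have hgU : ∀ g ∈ A.Aut, ∀ x, g x ∈ U ↔ x ∈ U := by
    intro g hg x
    refine ⟨fun h => ?_, hU.2 g hg x⟩
    have := hU.2 g⁻¹ (inv_mem hg) _ h
    rwa [show g⁻¹ (g x) = x from g.symm_apply_apply x] at this
  have hDchar : IsChar A D := by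
    refine ⟨hDsub, ?_⟩
    intro g hg x hx N hN hNU hab
    have h1 : x ∈ g ⁻¹' N := by
      apply hx (g ⁻¹' N)
      · refine ⟨?_, ?_⟩
        · change g A.e ∈ N
          rw [aut_e hg]; exact hN.e
        · intro a ha b hb
          change g (A.op a b) ∈ N
          rw [aut_apply hg]; exact hN.mul _ ha _ hb
      · intro y hy
        exact (hgU g hg y).1 (hNU hy)
      · refine ⟨?_, ?_⟩
        · intro x hx y hy m hm
          obtain ⟨⟨a, ha, ha'⟩, ⟨b, hb, hb'⟩, ⟨c, hc, hc'⟩⟩ :=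
            hab.1 _ ((hgU g hg x).2 hx) _ ((hgU g hg y).2 hy) _ hm
          obtain ⟨a, rfl⟩ := g.surjective a
          obtain ⟨b, rfl⟩ := g.surjective b
          obtain ⟨c, rfl⟩ := g.surjective c
          simp only [← aut_apply hg] at ha' hb' hc'
          exact ⟨⟨a, ha, g.injective ha'⟩, ⟨b, hb, g.injective hb'⟩, ⟨c, hc, g.injective hc'⟩⟩
        · intro x hx y hy z hz
          obtain ⟨⟨a, ha, ha'⟩, ⟨b, hb, hb'⟩⟩ :=
            hab.2 _ ((hgU g hg x).2 hx) _ ((hgU g hg y).2 hy) _ ((hgU g hg z).2 hz)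
          obtain ⟨a, rfl⟩ := g.surjective a
          obtain ⟨b, rfl⟩ := g.surjective b
          simp only [← aut_apply hg] at ha' hb'
          exact ⟨⟨a, ha, g.injective ha'⟩, ⟨b, hb, g.injective hb'⟩⟩
    exact h1
  -- `D ≠ U`
  have hDne : D ≠ U := by
    intro hEq
    obtain ⟨n, S, h0, hn, hS⟩ := hs
    have hind : ∀ j ≤ n, U ⊆ S (n - j) := by
      intro j
      induction j with
      | zero => intro _; rw [Nat.sub_zero, hn]; exact Set.subset_univ _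
      | succ j ih =>
        intro hj
        have h1 := ih (by omega)
        have e1 : n - j = (n - (j + 1)) + 1 := by omega
        rw [e1] at h1
        obtain ⟨g1, g2, g3, g4, g5⟩ := hS (n - (j + 1)) (by omega)
        intro x hx
        have hx' : x ∈ D := by rw [hEq]; exact hx
        have := hx' (S (n - (j + 1)) ∩ U)
          ⟨⟨g2, hU.1.e⟩, fun a ha b hb => ⟨g3 _ ha.1 _ hb.1, hU.1.mul _ ha.2 _ hb.2⟩⟩
          Set.inter_subset_right ?_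
        · exact this.1
        · refine ⟨?_, ?_⟩
          · intro x hx y hy m hm
            obtain ⟨⟨a, ha, ha'⟩, ⟨b, hb, hb'⟩, ⟨c, hc, hc'⟩⟩ := g4 x (h1 hx) y (h1 hy) m hm.1
            refine ⟨⟨a, ⟨ha, ?_⟩, ha'⟩, ⟨b, ⟨hb, ?_⟩, hb'⟩, ⟨c, ⟨hc, ?_⟩, hc'⟩⟩
            · exact hU.1.rdiv hx (by rw [← ha']; exact hU.1.mul _ hx _ hm.2)
            · exact hU.1.rdiv (hU.1.mul _ hx _ hy)
                (by rw [← hb']; exact hU.1.mul _ (hU.1.mul _ hm.2 _ hx) _ hy)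
            · exact hU.1.ldiv (hU.1.mul _ hy _ hx)
                (by rw [← hc']; exact hU.1.mul _ hy _ (hU.1.mul _ hx _ hm.2))
          · intro x hx y hy z hz
            obtain ⟨⟨a, ha, ha'⟩, ⟨b, hb, hb'⟩⟩ := g5 x (h1 hx) y (h1 hy) z (h1 hz)
            refine ⟨⟨a, ⟨ha, ?_⟩, ha'⟩, ⟨b, ⟨hb, ?_⟩, hb'⟩⟩
            · exact hU.1.ldiv (hU.1.mul _ hx _ (hU.1.mul _ hy _ hz))
                (by rw [← ha']; exact hU.1.mul _ (hU.1.mul _ hx _ hy) _ hz)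
            · exact hU.1.ldiv (hU.1.mul _ hy _ hx) (by rw [← hb']; exact hU.1.mul _ hx _ hy)
    have h2 := hind n le_rfl
    rw [Nat.sub_self, h0] at h2
    obtain ⟨x, hx, hxe⟩ := hUne
    exact hxe (h2 hx)
  -- so `D` is trivial
  have hDtriv : ∀ x ∈ D, x = A.e := by
    by_contra hcon
    push Not at hcon
    have h1 := hmin D ⟨hDchar, hcon⟩
    exact hDne (Set.eq_of_subset_of_ncard_le hDU h1)
  have hAb : AbQ A D U := by
    refine ⟨?_, ?_⟩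
    · intro x hx y hy m hm
      have hm' := hDtriv m hm
      subst hm'
      refine ⟨⟨A.e, hm, by rw [A.idl, A.idr]⟩, ⟨A.e, hm, by rw [A.idl, A.idl]⟩,
        ⟨A.e, hm, by rw [A.idr, A.idr]⟩⟩
    · intro x hx y hy z hz
      refine ⟨?_, ?_⟩
      · obtain ⟨a, ha⟩ := (A.bijL (A.op x (A.op y z))).2 (A.op (A.op x y) z)
        refine ⟨a, ?_, ha.symm⟩
        intro N hN hNU hab
        obtain ⟨⟨b, hb, hb'⟩, _⟩ := hab.2 x hx y hy z hz
        have : a = b := (A.bijL (A.op x (A.op y z))).1 (ha.trans hb')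
        rw [this]; exact hb
      · obtain ⟨a, ha⟩ := (A.bijL (A.op y x)).2 (A.op x y)
        refine ⟨a, ?_, ha.symm⟩
        intro N hN hNU hab
        obtain ⟨_, ⟨b, hb, hb'⟩⟩ := hab.2 x hx y hy z hz
        have : a = b := (A.bijL (A.op y x)).1 (ha.trans hb')
        rw [this]; exact hb
  refine ⟨?_, ?_⟩
  · intro x hx y hy
    obtain ⟨_, ⟨b, hb, hb'⟩⟩ := hAb.2 x hx y hy x hx
    rw [hDtriv b hb, A.idr] at hb'
    exact hb'
  · intro x hx y hy z hz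
    obtain ⟨⟨b, hb, hb'⟩, _⟩ := hAb.2 x hx y hy z hz
    rw [hDtriv b hb, A.idr] at hb'
    exact hb'

end Pool.Agent.H361R3.HL
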